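import Pool.Agent.Helper7.LS.Defs

/-!
Layer cake formulas for the lower bound `9/20` for the double lattice packing density.
-/

set_option autoImplicit false
namespace Pool.Agent.Helper7.LS
open MeasureTheory Metric
open Pool.Agent.Helper59.Pack Pool.Agent.Helper69.MD
open scoped ENNReal Pointwise

private theorem real_lev {K : Set E3} {u : ℝ} (hu : 0 < u) :
    (volume : Measure P2).real {y | u ≤ len K y} = ar K u := by
  unfold ar Measure.real
  congr 2
  ext y
  refine ⟨fun h => ⟨?_, h⟩, fun h => h.2⟩
  by_contra hy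
  have h1 : u ≤ len K y := h
  rw [len_off hy] at h1
  linarith

theorem vol_layer {K : Set E3} (hK : IsConvexBody K) {M : ℝ} (hM0 : 0 < M)
    (hmax : ∀ y, len K y ≤ M) : (volume K).toReal = ∫ u in (0 : ℝ)..M, ar K u := by
  rw [← integral_len hK, Integrable.integral_eq_integral_Ioc_meas_le (integrable_len hK)
    (Filter.Eventually.of_forall (len_nonneg K)) (Filter.Eventually.of_forall hmax),
    intervalIntegral.integral_of_le hM0.le]
  exact setIntegral_congr_fun measurableSet_Ioc fun u hu => real_lev hu.1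

private theorem fw_nonneg {K : Set E3} {H : ℝ} (y : P2) : 0 ≤ fw K H y := by
  unfold fw
  split_ifs
  · exact le_max_left _ _
  · norm_num

private theorem fw_le_one {K : Set E3} {H : ℝ} (hH : 0 < H) (y : P2) : fw K H y ≤ 1 := by
  unfold fw
  split_ifs with h
  · refine max_le (by norm_num) ?_
    have h1 : 2 * len K y / H ≤ 1 := by
      rw [div_le_one hH]
      linarith
    linarith
  · norm_num

private theorem meas_psi (H : ℝ) :
    Measurable fun t : ℝ => if t ≤ H / 2 then max 0 (2 * t / H - 1 / 2) else 1 := by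
  refine Measurable.ite (measurableSet_le measurable_id measurable_const) ?_ measurable_const
  exact measurable_const.max (((measurable_id.const_mul 2).div_const H).sub_const _)

private theorem measurable_fw {K : Set E3} (hK : IsConvexBody K) (H : ℝ) : Measurable (fw K H) :=
  (meas_psi H).comp (measurable_len hK)

theorem integrable_fw {K : Set E3} (hK : IsConvexBody K) {H : ℝ} (hH : 0 < H) :
    Integrable (fw K H) := by
  refine integrable_comp hK
    (ψ := fun t => if t ≤ H / 2 then max 0 (2 * t / H - 1 / 2) else 1) (meas_psi H) ?_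
    (C := 1) ?_
  · rw [if_pos (by positivity), mul_zero, zero_div]
    norm_num
  · intro y
    have h1 := fw_nonneg (K := K) (H := H) y
    have h2 := fw_le_one (K := K) hH y
    unfold fw at h1 h2
    rw [abs_of_nonneg h1]
    exact h2

theorem fw_layer {K : Set E3} (hK : IsConvexBody K) {H : ℝ} (hH : 0 < H) :
    ∫ y, fw K H y ≤ 2 / H * (∫ u in (H / 4)..(H / 2), ar K u) + 1 / 2 * ar K (H / 2) := by
  have hfi := integrable_fw hK hH
  rw [Integrable.integral_eq_integral_Ioc_meas_le (M := 1) hfi
    (Filter.Eventually.of_forall fw_nonneg) (Filter.Eventually.of_forall (fw_le_one hH))]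
  -- the measure of the superlevel sets
  have hlow : ∀ t ∈ Set.Ioc (0 : ℝ) (1 / 2), (volume : Measure P2).real {y | t ≤ fw K H y} =
      ar K (H / 2 * t + H / 4) := by
    intro t ht
    rw [← real_lev (K := K) (u := H / 2 * t + H / 4) (by nlinarith [ht.1])]
    congr 1
    ext y
    simp only [Set.mem_ofPred_eq]
    unfold fw
    split_ifs with h
    · constructor
      · intro h1
        rcases le_max_iff.1 h1 with h2 | h2
        · linarith [ht.1]
        · have h3 : t + 1 / 2 ≤ 2 * len K y / H := by linarith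
          rw [le_div_iff₀ hH] at h3
          linarith
      · intro h1
        refine le_max_of_le_right ?_
        have h3 : t + 1 / 2 ≤ 2 * len K y / H := by
          rw [le_div_iff₀ hH]
          linarith
        linarith
    · push Not at h
      constructor
      · intro _
        have h1 : H / 2 * t ≤ H / 2 * (1 / 2) := mul_le_mul_of_nonneg_left ht.2 (by positivity)
        linarith
      · intro _
        linarith [ht.2]
  have hfin : volume (lev K (H / 2)) ≠ ⊤ :=
    ((measure_mono fun y (hy : y ∈ lev K (H / 2)) => hy.1).trans_lt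
      (proj_compact hK).measure_lt_top).ne
  have hhigh : ∀ t ∈ Set.Ioc (1 / 2 : ℝ) 1, (volume : Measure P2).real {y | t ≤ fw K H y} ≤
      ar K (H / 2) := by
    intro t ht
    refine ENNReal.toReal_mono hfin (measure_mono fun y hy => ?_)
    have h1 : t ≤ fw K H y := hy
    have h2 : H / 2 < len K y := by
      by_contra hcon
      push Not at hcon
      unfold fw at h1
      rw [if_pos hcon] at h1
      rcases le_max_iff.1 h1 with h2 | h2
      · linarith [ht.1]
      · have h3 : 2 * len K y / H ≤ 1 := by
          rw [div_le_one hH]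
          linarith
        linarith [ht.1]
    refine ⟨?_, h2.le⟩
    by_contra hy2
    rw [len_off hy2] at h2
    linarith
  -- integrability
  have hint : IntegrableOn (fun t : ℝ => (volume : Measure P2).real {y | t ≤ fw K H y})
      (Set.Ioc 0 1) := by
    have hanti : Antitone fun t : ℝ => (volume : Measure P2) {y | t ≤ fw K H y} := by
      intro s t hst
      exact measure_mono fun y (hy : t ≤ fw K H y) => hst.trans hy
    have hm : Measurable fun t : ℝ => (volume : Measure P2).real {y | t ≤ fw K H y} :=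
      hanti.measurable.ennreal_toReal
    refine Measure.integrableOn_of_bounded (M := (volume (proj K)).toReal) (by simp)
      hm.aestronglyMeasurable ?_
    filter_upwards [ae_restrict_mem measurableSet_Ioc] with t ht
    rw [Real.norm_eq_abs, abs_of_nonneg measureReal_nonneg]
    refine ENNReal.toReal_mono (proj_compact hK).measure_lt_top.ne (measure_mono fun y hy => ?_)
    have h1 : t ≤ fw K H y := hy
    by_contra hy2
    unfold fw at h1
    rw [len_off hy2, if_pos (by positivity), mul_zero, zero_div] at h1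
    rcases le_max_iff.1 h1 with h2 | h2
    · linarith [ht.1]
    · linarith [ht.1]
  have hsplit : Set.Ioc (0 : ℝ) 1 = Set.Ioc 0 (1 / 2) ∪ Set.Ioc (1 / 2) 1 :=
    (Set.Ioc_union_Ioc_eq_Ioc (by norm_num) (by norm_num)).symm
  have hdisj : Disjoint (Set.Ioc (0 : ℝ) (1 / 2)) (Set.Ioc (1 / 2) 1) := by
    rw [Set.disjoint_left]
    intro t h1 h2
    exact absurd h1.2 (not_le.2 h2.1)
  have hi1 : IntegrableOn (fun t : ℝ => (volume : Measure P2).real {y | t ≤ fw K H y})
      (Set.Ioc 0 (1 / 2)) := hint.mono_set (Set.Ioc_subset_Ioc_right (by norm_num))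
  have hi2 : IntegrableOn (fun t : ℝ => (volume : Measure P2).real {y | t ≤ fw K H y})
      (Set.Ioc (1 / 2) 1) := hint.mono_set (Set.Ioc_subset_Ioc_left (by norm_num))
  rw [hsplit, setIntegral_union hdisj measurableSet_Ioc hi1 hi2]
  refine add_le_add (le_of_eq ?_) ?_
  · rw [setIntegral_congr_fun measurableSet_Ioc hlow,
      ← intervalIntegral.integral_of_le (by norm_num),
      intervalIntegral.integral_comp_mul_add (fun u => ar K u) (by positivity : H / 2 ≠ 0) (H / 4)]
    rw [smul_eq_mul]
    congr 1
    · field_simp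
    · congr 1
      · ring
      · ring
  · calc ∫ t in Set.Ioc (1 / 2 : ℝ) 1, (volume : Measure P2).real {y | t ≤ fw K H y}
        ≤ ∫ _t in Set.Ioc (1 / 2 : ℝ) 1, ar K (H / 2) :=
          setIntegral_mono_on hi2 (integrableOn_const (by simp)) measurableSet_Ioc hhigh
      _ = 1 / 2 * ar K (H / 2) := by
          rw [setIntegral_const, smul_eq_mul]
          congr 1
          rw [Measure.real, Real.volume_Ioc, ENNReal.toReal_ofReal (by norm_num)]
          norm_num

theorem good_of_integral' {K : Set E3} (hK : IsConvexBody K) {t₁ t₂ : P2} {D H : ℝ}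
    (hD : det2 t₁ t₂ = D) (hD0 : 0 < D) (hH : 0 < H) (hint : 4 * ∫ y, fw K H y < D) :
    ∃ w : P2, ∀ m n : Fin 4 → ℤ, Function.Injective (fun i => (m i, n i)) →
      (∀ i, 2 * len K ((1 / 2 : ℝ) • (w + (m i : ℝ) • t₁ + (n i : ℝ) • t₂)) ≤ H) ∧
      2 * ∑ i, len K ((1 / 2 : ℝ) • (w + (m i : ℝ) • t₁ + (n i : ℝ) • t₂)) ≤ 3 * H := by
  have h1 : 4 * ∫⁻ y, ENNReal.ofReal (fw K H y) < ENNReal.ofReal D := by
    rw [← ofReal_integral_eq_lintegral_ofReal (integrable_fw hK hH)
      (Filter.Eventually.of_forall (fun y => fw_nonneg y))]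
    rw [show (4 : ℝ≥0∞) = ENNReal.ofReal 4 by simp, ← ENNReal.ofReal_mul (by norm_num)]
    exact (ENNReal.ofReal_lt_ofReal_iff hD0).2 hint
  obtain ⟨w, hw⟩ := exists_good_point t₁ t₂ hD hD0 (measurable_fw hK H).ennreal_ofReal h1
  refine ⟨w, fun m n hinj => ?_⟩
  have h2 := hw m n hinj
  set z : Fin 4 → P2 := fun i => (1 / 2 : ℝ) • (w + (m i : ℝ) • t₁ + (n i : ℝ) • t₂) with hz
  have h3 : ∑ i, fw K H (z i) < 1 := by
    have h4 : ∑ i, ENNReal.ofReal (fw K H (z i)) = ENNReal.ofReal (∑ i, fw K H (z i)) :=
      (ENNReal.ofReal_sum_of_nonneg (fun i _ => fw_nonneg _)).symm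
    have h5 : ENNReal.ofReal (∑ i, fw K H (z i)) < ENNReal.ofReal 1 := by
      rw [← h4, ENNReal.ofReal_one]; exact h2
    exact (ENNReal.ofReal_lt_ofReal_iff one_pos).1 h5
  have h6 : ∀ i, len K (z i) ≤ H / 2 := by
    intro i
    by_contra hcon
    have h7 : fw K H (z i) = 1 := by
      unfold fw
      rw [if_neg hcon]
    have h8 : fw K H (z i) ≤ ∑ j, fw K H (z j) :=
      Finset.single_le_sum (fun j _ => fw_nonneg _) (Finset.mem_univ i)
    linarith
  refine ⟨fun i => by linarith [h6 i], ?_⟩
  have h7 : ∀ i, len K (z i) ≤ H / 2 * (fw K H (z i) + 1 / 2) := by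
    intro i
    have h8 : 2 * len K (z i) / H - 1 / 2 ≤ fw K H (z i) := by
      unfold fw
      rw [if_pos (h6 i)]
      exact le_max_right _ _
    have h9 : 2 * len K (z i) / H ≤ fw K H (z i) + 1 / 2 := by linarith
    rw [div_le_iff₀ hH] at h9
    linarith
  have h8 : ∑ i, len K (z i) ≤ ∑ i, H / 2 * (fw K H (z i) + 1 / 2) :=
    Finset.sum_le_sum fun i _ => h7 i
  rw [← Finset.mul_sum, Finset.sum_add_distrib, Finset.sum_const, Finset.card_univ,
    Fintype.card_fin, nsmul_eq_mul] at h8
  have h9 : H / 2 * ((∑ i, fw K H (z i)) + (4 : ℕ) * (1 / 2)) ≤ H / 2 * 3 := by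
    apply mul_le_mul_of_nonneg_left _ (by positivity)
    push_cast
    linarith
  linarith

end Pool.Agent.Helper7.LS
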